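import Pool.Agent.Lib.MP_4fbe7c_an.RS.Iface
import Pool.Agent.Lib.MP_4fbe7c_an.FC.H22.Tht
import Pool.Agent.Lib.MP_4fbe7c_an.SD.SteadyB

/-!
Project RS (MP_4fbe7c_an), module RZL (helper40): lower bound for `∫ (θ'/θ) ^ 2`, small rates.
-/

set_option autoImplicit false

open Set MeasureTheory intervalIntegral

namespace Pool.Agent.Lib.MP_4fbe7c_an.RS.H40

open Pool.Agent.Lib.MP_4fbe7c_an.SD Pool.Agent.Lib.MP_4fbe7c_an.FC
  Pool.Agent.Lib.MP_4fbe7c_an.WH Pool.Agent.Lib.MP_4fbe7c_an.RS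

/-- `(f x - f 0) ^ 2 ≤ L ∫ f' ^ 2`. -/
theorem sq_sub_le {L : ℝ} (hL : 0 < L) {f f' : ℝ → ℝ} (h : DerivOn L f f')
    (hc : ContinuousOn f' (Icc 0 L)) {x : ℝ} (hx : x ∈ Icc 0 L) :
    (f x - f 0) ^ 2 ≤ L * ∫ y in (0)..L, f' y ^ 2 := by
  have h0m : (0 : ℝ) ∈ Icc 0 L := ⟨le_refl 0, hL.le⟩
  have hLm : L ∈ Icc 0 L := ⟨hL.le, le_refl L⟩
  have hsq : ContinuousOn (fun y => f' y ^ 2) (Icc 0 L) := hc.pow 2
  have i0x := H95.intble hsq h0m hx
  have ixL := H95.intble hsq hx hLm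
  have h1 : ∫ y in (0)..x, f' y ^ 2 ≤ ∫ y in (0)..L, f' y ^ 2 := by
    rw [← intervalIntegral.integral_add_adjacent_intervals i0x ixL]
    have : 0 ≤ ∫ y in x..L, f' y ^ 2 :=
      intervalIntegral.integral_nonneg hx.2 fun y _ => sq_nonneg _
    linarith
  have h2 : ∫ y in (0)..x, f' y = f x - f 0 := H95.ftc h hc (le_refl 0) hx.1 hx.2
  set D : ℝ := f x - f 0 with hD
  have h3 : 0 ≤ ∫ y in (0)..x, (f' y ^ 2 - (2 * (D / L)) * f' y + (D / L) ^ 2) := by
    refine intervalIntegral.integral_nonneg hx.1 fun y _ => ?_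
    nlinarith [sq_nonneg (f' y - D / L)]
  have i1 := H95.intble hc h0m hx
  rw [intervalIntegral.integral_add (i0x.sub (i1.const_mul _)) (by simp),
    intervalIntegral.integral_sub i0x (i1.const_mul _), intervalIntegral.integral_const_mul,
    intervalIntegral.integral_const, h2, smul_eq_mul, sub_zero] at h3
  have h4 : x * (D / L) ^ 2 ≤ L * (D / L) ^ 2 :=
    mul_le_mul_of_nonneg_right hx.2 (sq_nonneg _)
  have h5 : L * (D / L) ^ 2 = D ^ 2 / L := by field_simp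
  have h6 : 2 * (D / L) * D = 2 * (D ^ 2 / L) := by ring
  have h7 : D ^ 2 / L ≤ ∫ y in (0)..L, f' y ^ 2 := by linarith
  rw [div_le_iff₀ hL] at h7
  linarith

theorem rzl : RzlStatement := by
  intro L M m m' hL hm hmc hne hmM hM hmpos
  have hcm : ContinuousOn m (Icc 0 L) := H95.DerivOn.cont hm
  have h0m : (0 : ℝ) ∈ Icc 0 L := ⟨le_refl 0, hL.le⟩
  have hLm : L ∈ Icc 0 L := ⟨hL.le, le_refl L⟩
  have ii : ∀ {f : ℝ → ℝ}, ContinuousOn f (Icc 0 L) → IntervalIntegrable f volume 0 L :=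
    fun hf => H95.intble hf h0m hLm
  -- the minimum of `m`
  obtain ⟨x0, hx0, hmin⟩ := isCompact_Icc.exists_isMinOn (nonempty_Icc.2 hL.le) hcm
  have hm0 : 0 < m x0 := hmpos x0 hx0
  have hmlow : ∀ x ∈ Icc 0 L, m x0 ≤ m x := fun x hx => hmin hx
  -- the integral of `m' ^ 2`
  set Λ : ℝ := ∫ x in (0)..L, m' x ^ 2 with hΛ
  have hΛ0 : 0 ≤ Λ := intervalIntegral.integral_nonneg hL.le fun x _ => sq_nonneg _
  -- the variance of `m`
  set A : ℝ := (∫ x in (0)..L, m x) / L with hA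
  have hAL : ∫ x in (0)..L, m x = A * L := by rw [hA]; field_simp
  set v : ℝ := ∫ x in (0)..L, (m x - A) ^ 2 with hv
  have hcA : ContinuousOn (fun x => (m x - A) ^ 2) (Icc 0 L) := (hcm.sub continuousOn_const).pow 2
  have hv0 : 0 < v := by
    by_contra hcon
    push Not at hcon
    have h1 := H95.eq_zero_of_integral hL hcA (fun x _ => sq_nonneg _) hcon
    obtain ⟨x, hx, y, hy, hxy⟩ := hne
    apply hxy
    have h2 := pow_eq_zero_iff (two_ne_zero) |>.1 (h1 x hx)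
    have h3 := pow_eq_zero_iff (two_ne_zero) |>.1 (h1 y hy)
    linarith
  -- the variance is smallest at the mean
  have hvar : ∀ c : ℝ, v ≤ ∫ x in (0)..L, (m x - c) ^ 2 := by
    intro c
    have e : ∫ x in (0)..L, (m x - c) ^ 2 =
        ∫ x in (0)..L, ((m x - A) ^ 2 + (2 * (A - c) * m x + (c ^ 2 - A ^ 2))) := by
      congr 1
      ext x
      ring
    rw [e, intervalIntegral.integral_add (ii hcA)
        (((ii hcm).const_mul _).add (by simp)),
      intervalIntegral.integral_add ((ii hcm).const_mul _) (by simp),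
      intervalIntegral.integral_const_mul, intervalIntegral.integral_const, hAL, smul_eq_mul,
      sub_zero]
    have : 0 ≤ L * (A - c) ^ 2 := by positivity
    nlinarith
  refine ⟨v / (4 * L ^ 2 * M ^ 2), m x0 * v / (Λ + 1), by positivity, by positivity, ?_⟩
  intro d θ θ' θ'' hd hdδ hθ
  have hcθ : ContinuousOn θ (Icc 0 L) := H95.st_c0 hθ
  have hcθ' : ContinuousOn θ' (Icc 0 L) := H95.st_c1 hθ
  obtain ⟨-, -, ht⟩ := FC.H22.tht L (m x0) Λ d m m' θ θ' θ'' hL hm0 hd hm hmc hmlow le_rfl hθ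
  -- closeness of `θ` to `m`
  have h1 : ∫ x in (0)..L, (m x - θ x) ^ 2 ≤ v / 4 := by
    refine ht.trans ?_
    rw [div_le_iff₀ (by positivity)]
    have h2 : d * (Λ + 1) ≤ m x0 * v := by
      rwa [le_div_iff₀ (by positivity)] at hdδ
    nlinarith
  -- the oscillation of `θ`
  have hosc : ∫ x in (0)..L, (θ x - θ 0) ^ 2 ≤ L * (L * ∫ y in (0)..L, θ' y ^ 2) := by
    have h3 : ∫ x in (0)..L, (θ x - θ 0) ^ 2 ≤
        ∫ _x in (0)..L, (L * ∫ y in (0)..L, θ' y ^ 2) := by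
      refine intervalIntegral.integral_mono_on hL.le (ii ((hcθ.sub continuousOn_const).pow 2))
        (by simp) fun x hx => sq_sub_le hL hθ.d1 hcθ' hx
    rw [intervalIntegral.integral_const, smul_eq_mul, sub_zero] at h3
    exact h3
  -- the bound for `θ`
  have hθM : ∀ x ∈ Icc 0 L, θ x ≤ M :=
    steady_le hL hd (fun x hx => (le_abs_self _).trans (hmM x hx)) hθ
  have hcz : ContinuousOn (fun x => (θ' x / θ x) ^ 2) (Icc 0 L) :=
    (hcθ'.div hcθ fun x hx => (hθ.pos x hx).ne').pow 2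
  have hz : ∫ y in (0)..L, θ' y ^ 2 ≤ M ^ 2 * ∫ x in (0)..L, (θ' x / θ x) ^ 2 := by
    rw [← intervalIntegral.integral_const_mul]
    refine intervalIntegral.integral_mono_on hL.le (ii (hcθ'.pow 2)) ((ii hcz).const_mul _)
      fun x hx => ?_
    have hp := hθ.pos x hx
    have h4 : θ' x ^ 2 = θ x ^ 2 * (θ' x / θ x) ^ 2 := by
      field_simp
    rw [h4]
    have h5 : θ x ^ 2 ≤ M ^ 2 := by
      have := hθM x hx
      nlinarith
    exact mul_le_mul_of_nonneg_right h5 (sq_nonneg _)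
  -- the split
  have hc1 : ContinuousOn (fun x => 2 * (m x - θ x) ^ 2) (Icc 0 L) :=
    ((hcm.sub hcθ).pow 2).const_mul 2
  have hc2 : ContinuousOn (fun x => 2 * (θ x - θ 0) ^ 2) (Icc 0 L) :=
    ((hcθ.sub continuousOn_const).pow 2).const_mul 2
  have hsplit : v ≤ 2 * (∫ x in (0)..L, (m x - θ x) ^ 2) +
      2 * ∫ x in (0)..L, (θ x - θ 0) ^ 2 := by
    refine (hvar (θ 0)).trans ?_
    rw [← intervalIntegral.integral_const_mul, ← intervalIntegral.integral_const_mul,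
      ← intervalIntegral.integral_add (ii hc1) (ii hc2)]
    refine intervalIntegral.integral_mono_on hL.le (ii ((hcm.sub continuousOn_const).pow 2))
      ((ii hc1).add (ii hc2)) fun x _ => ?_
    nlinarith [sq_nonneg (m x - θ x - (θ x - θ 0))]
  have h6 : v / 4 ≤ L * (L * (M ^ 2 * ∫ x in (0)..L, (θ' x / θ x) ^ 2)) := by
    have h7 : L * (L * ∫ y in (0)..L, θ' y ^ 2) ≤
        L * (L * (M ^ 2 * ∫ x in (0)..L, (θ' x / θ x) ^ 2)) := by gcongr
    linarith
  rw [div_le_iff₀ (by positivity)]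
  nlinarith

end Pool.Agent.Lib.MP_4fbe7c_an.RS.H40
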